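import Mathlib

/-!
# MP_98b1c4_co: two specified terms in regular type A sequences

The least length of a regular type A sequence containing `60` is `8`, but the least length of one
that contains both `51` and `60` is `10`. So `a(51, 60) = a(60) + 2`.

Proof of the lower bound. A term of a sequence of length `n` is at most `2^(n-2)`, and the sum of
the terms is at most `2^(n-1)`. So if a sequence of length at most `9` contains `51` and `60`, then
the two terms are the last two which were put in, at the lengths `8` and `9`, and the sequence of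
length `7` before that has sum at least `51`. There are `330` such sequences, and none of them can
be continued.
-/

set_option autoImplicit false

namespace Pool.Agent.Results.MP_98b1c4_co.TwoMoreTerms

/-- Regular type A sequences: start with `(1, 1)`; put in front a new term equal to the sum of the
first `j` terms, or at the end a new term equal to the sum of the last `j` terms, `j ≥ 1`. -/
inductive TypeA : List ℕ → Prop
  | start : TypeA [1, 1]
  | front (d : List ℕ) (j : ℕ) (h : TypeA d) (h1 : 1 ≤ j) (h2 : j ≤ d.length) :
      TypeA ((d.take j).sum :: d)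
  | back (d : List ℕ) (j : ℕ) (h : TypeA d) (h1 : 1 ≤ j) (h2 : j ≤ d.length) :
      TypeA (d ++ [(d.drop (d.length - j)).sum])

/-- The set of the lengths `n` of the regular type A sequences that contain some ordering of `ks` as
a subsequence. -/
def lengths (ks : List ℕ) : Set ℕ :=
  {n | ∃ d : List ℕ, TypeA d ∧ d.length = n ∧ ∃ l : List ℕ, l.Perm ks ∧ l.Sublist d}

/-- `a(k_1, …, k_m)` is the least length of a regular type A sequence that contains some ordering of
`k_1, …, k_m` as a subsequence. -/
noncomputable def a (ks : List ℕ) : ℕ := sInf (lengths ks)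

/-- all continuations of `d` by one term -/
def next (d : List ℕ) : List (List ℕ) :=
  (List.range d.length).flatMap fun i =>
    [(d.take (i + 1)).sum :: d, d ++ [(d.drop (d.length - (i + 1))).sum]]

/-- the sequences of length `n + 2` whose sum is at least `51 / 2^(5 - n)` -/
def lev : ℕ → List (List ℕ)
  | 0 => [[1, 1]]
  | n + 1 => ((lev n).flatMap next).filter fun d => 51 ≤ 2 ^ (5 - (n + 1)) * d.sum

lemma front_mem (d : List ℕ) (j : ℕ) (h1 : 1 ≤ j) (h2 : j ≤ d.length) :
    (d.take j).sum :: d ∈ next d := by
  unfold next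
  rw [List.mem_flatMap]
  refine ⟨j - 1, List.mem_range.2 (by omega), ?_⟩
  rw [show j - 1 + 1 = j by omega]
  simp

lemma back_mem (d : List ℕ) (j : ℕ) (h1 : 1 ≤ j) (h2 : j ≤ d.length) :
    d ++ [(d.drop (d.length - j)).sum] ∈ next d := by
  unfold next
  rw [List.mem_flatMap]
  refine ⟨j - 1, List.mem_range.2 (by omega), ?_⟩
  rw [show j - 1 + 1 = j by omega]
  simp

/-- Every regular type A sequence is `(1, 1)` or a continuation. -/
lemma cases_next {e : List ℕ} (he : TypeA e) :
    e = [1, 1] ∨ ∃ d, TypeA d ∧ e ∈ next d ∧ e.length = d.length + 1 ∧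
      ∃ t, t ≤ d.sum ∧ e.sum = d.sum + t ∧ ∀ x, x ∈ e ↔ x = t ∨ x ∈ d := by
  cases he with
  | start => exact Or.inl rfl
  | front d j h h1 h2 =>
    refine Or.inr ⟨d, h, front_mem d j h1 h2, by simp, (d.take j).sum, ?_, by simp [add_comm],
      fun x => by simp⟩
    calc (d.take j).sum ≤ (d.take j).sum + (d.drop j).sum := Nat.le_add_right _ _
      _ = d.sum := List.sum_take_add_sum_drop d j
  | back d j h h1 h2 =>
    refine Or.inr ⟨d, h, back_mem d j h1 h2, by simp, (d.drop (d.length - j)).sum, ?_, by simp,
      fun x => by simp [or_comm]⟩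
    calc (d.drop (d.length - j)).sum ≤
        (d.take (d.length - j)).sum + (d.drop (d.length - j)).sum := Nat.le_add_left _ _
      _ = d.sum := List.sum_take_add_sum_drop d _

/-- bounds for the length, the sum and the terms -/
lemma bounds : ∀ n : ℕ, ∀ e : List ℕ, TypeA e → e.length = n →
    2 ≤ n ∧ e.sum ≤ 2 ^ (n - 1) ∧ ∀ x ∈ e, x ≤ 2 ^ (n - 2) := by
  intro n
  induction n with
  | zero =>
    intro e he hl
    rcases cases_next he with rfl | ⟨d, -, -, h, -⟩
    · simp at hl
    · omega
  | succ n ih =>
    intro e he hl
    rcases cases_next he with rfl | ⟨d, hd, -, h, t, ht, hs, hm⟩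
    · simp only [List.length_cons, List.length_nil] at hl
      obtain rfl : n = 1 := by omega
      refine ⟨le_refl _, by simp, ?_⟩
      intro x hx
      simp at hx
      simp [hx]
    · obtain ⟨h2, h3, h4⟩ := ih d hd (by omega)
      obtain ⟨m, rfl⟩ : ∃ m, n = m + 2 := ⟨n - 2, by omega⟩
      simp only [show m + 2 - 1 = m + 1 by omega, show m + 2 - 2 = m by omega] at h3 h4
      simp only [show m + 2 + 1 - 1 = m + 2 by omega, show m + 2 + 1 - 2 = m + 1 by omega]
      have e1 : 2 ^ (m + 2) = 2 * 2 ^ (m + 1) := by ring
      have e2 : 2 ^ (m + 1) = 2 * 2 ^ m := by ring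
      refine ⟨by omega, by omega, fun x hx => ?_⟩
      rcases (hm x).1 hx with rfl | hx
      · omega
      · have := h4 x hx
        omega

/-- The list `lev n` is complete. -/
lemma lev_complete : ∀ n : ℕ, n ≤ 5 → ∀ e : List ℕ, TypeA e → e.length = n + 2 →
    51 ≤ 2 ^ (5 - n) * e.sum → e ∈ lev n := by
  intro n
  induction n with
  | zero =>
    intro _ e he hl _
    rcases cases_next he with rfl | ⟨d, hd, -, h, -⟩
    · simp [lev]
    · have := (bounds d.length d hd rfl).1
      omega
  | succ n ih =>
    intro hn e he hl hs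
    rcases cases_next he with rfl | ⟨d, hd, hmem, h, t, ht, hsum, -⟩
    · simp at hl
    · have h51 : 51 ≤ 2 ^ (5 - n) * d.sum := by
        have e1 : 2 ^ (5 - n) = 2 ^ (5 - (n + 1)) * 2 := by
          rw [← pow_succ]
          congr 1
          omega
        calc 51 ≤ 2 ^ (5 - (n + 1)) * e.sum := hs
          _ ≤ 2 ^ (5 - (n + 1)) * (2 * d.sum) := Nat.mul_le_mul_left _ (by omega)
          _ = _ := by rw [e1]; ring
      have := ih (by omega) d hd (by omega) h51
      unfold lev
      rw [List.mem_filter]
      exact ⟨List.mem_flatMap.2 ⟨d, this, hmem⟩, by simpa using hs⟩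

/-- No continuation of `X` by two terms puts in both `51` and `60`. -/
def good (X : List ℕ) : Bool :=
  (next X).all fun Y => !(Y.contains 51 || Y.contains 60) ||
    (next Y).all fun Z => !(Z.contains 51 && Z.contains 60)

lemma check : ((lev 5).all good) = true := by decide +kernel

/-- A sequence which contains `51` and `60` has length at least `10`. -/
lemma lower : ∀ n : ℕ, ∀ e : List ℕ, TypeA e → e.length = n → 51 ∈ e → 60 ∈ e → 10 ≤ n := by
  intro n
  induction n with
  | zero =>
    intro e he hl h1 _
    rw [List.length_eq_zero_iff.1 hl] at h1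
    simp at h1
  | succ n ih =>
    intro e he hl h51 h60
    by_contra hcon
    rcases cases_next he with rfl | ⟨Y, hY, hZ, hYl, t, ht, hsum, hm⟩
    · simp at h51
    · -- not both in `Y`
      have hYn : Y.length = n := by omega
      by_cases hb : 51 ∈ Y ∧ 60 ∈ Y
      · have := ih Y hY hYn hb.1 hb.2
        omega
      · have hone : 51 ∈ Y ∨ 60 ∈ Y := by
          rcases (hm 51).1 h51 with h | h
          · rcases (hm 60).1 h60 with h' | h'
            · omega
            · exact Or.inr h'
          · exact Or.inl h
        obtain ⟨hn2, -, hterm⟩ := bounds n Y hY hYn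
        have hn8 : n = 8 := by
          have h1 : 2 ^ 5 < 2 ^ (n - 2) := by
            rcases hone with h | h
            · have := hterm _ h
              omega
            · have := hterm _ h
              omega
          have := (Nat.pow_lt_pow_iff_right (by norm_num : 1 < 2)).1 h1
          omega
        rcases cases_next hY with rfl | ⟨X, hX, hYX, hXl, t', ht', hsum', hm'⟩
        · simp at hone
        · have hX7 : X.length = 7 := by omega
          obtain ⟨-, -, hXterm⟩ := bounds 7 X hX hX7
          have ht51 : 51 ≤ t' := by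
            rcases hone with h | h
            · rcases (hm' _).1 h with h | h
              · omega
              · have := hXterm _ h
                norm_num at this
            · rcases (hm' _).1 h with h | h
              · omega
              · have := hXterm _ h
                norm_num at this
          have hXlev : X ∈ lev 5 := lev_complete 5 (le_refl _) X hX hX7 (by
            norm_num
            omega)
          have hg := (List.all_eq_true.1 check) X hXlev
          unfold good at hg
          have hg1 := (List.all_eq_true.1 hg) Y hYX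
          rw [Bool.or_eq_true] at hg1
          rcases hg1 with hg1 | hg1
          · rcases hone with h | h <;> simp [h] at hg1
          · have hg2 := (List.all_eq_true.1 hg1) e hZ
            simp [h51, h60] at hg2

lemma mem8 : TypeA [60, 30, 15, 7, 4, 2, 1, 1] := by
  have h1 := TypeA.front _ 2 TypeA.start (by simp) (by simp)
  have h2 := TypeA.front _ 3 h1 (by simp) (by simp)
  have h3 := TypeA.front _ 3 h2 (by simp) (by simp)
  have h4 := TypeA.front _ 5 h3 (by simp) (by simp)
  have h5 := TypeA.front _ 6 h4 (by simp) (by simp)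
  have h6 := TypeA.front _ 7 h5 (by simp) (by simp)
  simpa using h6

lemma mem10 : TypeA [19, 16, 3, 2, 1, 1, 1, 8, 51, 60] := by
  have h1 := TypeA.front _ 1 TypeA.start (by simp) (by simp)
  have h2 := TypeA.front _ 2 h1 (by simp) (by simp)
  have h3 := TypeA.front _ 2 h2 (by simp) (by simp)
  have h4 := TypeA.back _ 5 h3 (by simp) (by simp)
  have h5 := TypeA.front _ 6 h4 (by simp) (by simp)
  have h6 := TypeA.front _ 2 h5 (by simp) (by simp)
  have h7 := TypeA.back _ 8 h6 (by simp) (by simp)
  have h8 := TypeA.back _ 3 h7 (by simp) (by simp)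
  simpa using h8

lemma least60 : IsLeast (lengths [60]) 8 := by
  refine ⟨⟨_, mem8, rfl, [60], List.Perm.refl _, by simp⟩, ?_⟩
  rintro n ⟨d, hd, hl, l, hp, hs⟩
  have h60 : 60 ∈ d := hs.subset (hp.symm.subset (by simp))
  obtain ⟨h2, -, h⟩ := bounds n d hd hl
  have h1 : 2 ^ 5 < 2 ^ (n - 2) := by
    have := h _ h60
    omega
  have := (Nat.pow_lt_pow_iff_right (by norm_num : 1 < 2)).1 h1
  omega

lemma least5160 : IsLeast (lengths [51, 60]) 10 := by
  refine ⟨⟨_, mem10, rfl, [51, 60], List.Perm.refl _, by decide⟩, ?_⟩
  rintro n ⟨d, hd, hl, l, hp, hs⟩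
  exact lower n d hd hl (hs.subset (hp.symm.subset (by simp)))
    (hs.subset (hp.symm.subset (by simp)))

/-- `a(60) = 8` and `a(51, 60) = 10`, both as minima of nonempty sets, so the inequality
`a(k₁, k₂) ≤ a(k₂) + 1` fails. -/
theorem result :
    IsLeast (lengths [60]) 8 ∧ IsLeast (lengths [51, 60]) 10 ∧
    a [60] = 8 ∧ a [51, 60] = 10 ∧
    (∃ k₁ k₂ : ℕ, 1 ≤ k₁ ∧ k₁ ≤ k₂ ∧ a [k₂] + 2 ≤ a [k₁, k₂]) ∧
    ¬ ∀ k₁ k₂ : ℕ, 1 ≤ k₁ → k₁ ≤ k₂ → a [k₁, k₂] ≤ a [k₂] + 1 := by
  have e1 : a [60] = 8 := least60.csInf_eq
  have e2 : a [51, 60] = 10 := least5160.csInf_eq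
  refine ⟨least60, least5160, e1, e2, ⟨51, 60, by norm_num, by norm_num, by omega⟩, fun h => ?_⟩
  have := h 51 60 (by norm_num) (by norm_num)
  omega

end Pool.Agent.Results.MP_98b1c4_co.TwoMoreTerms
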